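import Pool.Agent.U569.APL.Singer
import Pool.Agent.Results.MP_79499b_co.ThinOrdersLiftable
import Pool.Agent.Results.MP_79499b_co.ThinOrdersOddDimension

/-!
# Difference sets with Singer parameters: orders from families formed from arbitrary sets

`HasSingerDifferenceSet n m`: some finite group (not assumed abelian) contains a difference set with the Singer parameters of
`(n, m)`. `Liftable n m`: there is such a difference set which lifts, as the classical Singer difference sets do, to a relative
difference set in a finite group with a normal Sylow 2-subgroup. Conjecturally `n` is then a prime power.

The starting results `ThinOrdersLiftable` and `ThinOrdersOddDimension` are about sequences of orders which are uniformly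
distributed modulo all integers. Here we consider families of integers `v = c₀ + y`, where `c₀` is arbitrary and `y` is a
residue from a family with small Fourier coefficients modulo some `q` (`FlatFamilies`), for example (`Examples`): the values of
a bilinear form on two ARBITRARY sets, for instance the products `x y` of the elements of two ARBITRARY sets `E`, `F` of
residues modulo a prime `P` with `|E| |F| ≥ P ^ (1 + δ)`, the values of polynomials on products of ARBITRARY sets (both plus
arbitrary functions of the single arguments), and the values of polynomials on subgroups.

**Theorem.** There is ONE small set of exceptions such that for ALL integers `c`, ALL `K` and ALL odd `i`, for all members `v` of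
all but finitely many of the families, outside of the exceptions, with `n = v + c ≥ 2`, no finite group contains a difference
set with the Singer parameters of `(n ^ i, m)`, whatever the odd number `m ≥ 3` with least prime factor at most `K` is, and no
difference set with the Singer parameters of `(n ^ i, m)` is liftable, whatever the even number `m ≥ 4` is.

Proof: the local criteria of the starting library `N92.SD` (a prime `q` modulo which `n` has a suitable order, and a prime `r`,
not a square modulo `q`, which divides `n` exactly once) with Turán's sieve, transferred to the families.
-/

set_option autoImplicit false

namespace Pool.Agent.Results.MP_79499b_co.ArbitrarySets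

open Pool.Agent.U569.APL (FlatFamilies Small Outside Examples singer_main examples)
open Pool.Agent.Results.MP_79499b_co.ThinOrdersOddDimension (HasSingerDifferenceSet)
open Pool.Agent.Results.MP_79499b_co.ThinOrdersLiftable (Liftable)

/-- There are no difference sets with the Singer parameters of `(n, m)`, for all odd `m ≥ 3` with least prime factor at most
`K`, and there are no liftable ones, for all even `m ≥ 4`. -/
def NoSinger (K n : ℕ) : Prop :=
  (∀ m : ℕ, Odd m → 3 ≤ m → m.minFac ≤ K → ¬ HasSingerDifferenceSet n m) ∧ ∀ m : ℕ, Even m → 4 ≤ m → ¬ Liftable n m

/-- **Theorem.** For all sequences of flat families of integers `v` there is ONE small set of exceptions such that for ALL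
integers `c`, ALL `K` and ALL odd `i`: for large `j`, all members `v` of the `j`-th family outside of the exceptions are such that
`NoSinger K (n ^ i)`, if `n = v + c ≥ 2`. The families formed from arbitrary sets are flat. -/
theorem result :
    (∀ (τ : ℕ → Type) (s : ∀ j, Finset (τ j)) (v : ∀ j, τ j → Unit → ℤ), FlatFamilies s v →
      ∃ E : ∀ j, Finset (τ j), Small s E ∧ ∀ (c : ℤ) (K i : ℕ), Odd i →
        Outside s E v fun w => ∀ n : ℕ, (n : ℤ) = w () + c → 2 ≤ n → NoSinger K (n ^ i)) ∧
    Examples Unit :=
  ⟨fun _ _ _ h => singer_main h, examples Unit⟩

end Pool.Agent.Results.MP_79499b_co.ArbitrarySets
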