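import Pool.Agent.U449.BV.O
import Pool.Agent.Results.MP_79499b_co.OrderCountOdd

/-!
# Difference sets with Singer parameters: the integers near the values of polynomials on arbitrary dense sets

Let `p` be a prime and `f(x, y)` ANY polynomial modulo `p` of degree at most `d` with a monomial which contains both variables (for
example `f = x y`), let `A`, `B` be ARBITRARY sets of residues modulo `p`, `g`, `h` ARBITRARY functions, and `1 ≤ W ≤ p`.
For all but `Θ |A| |B|` of the pairs `(a, b)` in `A × B`, where `Θ ^ 2 = C d e(p) (p / |A| + W p / |B|)`, `e(X) = (1 + log X) ^ (ε - 1)`,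
no integer `n ≥ 2` at a distance of at most `W` from the least residue of `f(a, b) + g(a) + h(b)` is an order of a difference set with
Singer parameters: for all odd `m ≥ 3` with a prime factor at most `K` (for example for all `m` divisible by `3`, planar difference sets for
`m = 3`) no finite group contains a difference set with the Singer parameters of `(n, m)`.
So this holds for almost all pairs if `A`, `B` are dense and `W` is small in the same sense as the set of the exceptions is sparse.
More generally, this holds for all functions `F(a, b)` with few coincidences (`Rare`).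

Since the sets and the functions `g` and `h` are arbitrary, the values have no arithmetic structure, and a value may be
taken by very many pairs. So the number of the exceptions (starting library) does not give the result directly. Proof: the
inequality of Cauchy and Schwarz; for most pairs `a, a'` the difference `F(a, b) - F(a', b)` is small for few `b`
(`Pool.Agent.U449.BV`).
-/

set_option autoImplicit false

namespace Pool.Agent.Results.MP_79499b_co.MixedOnDenseSets

open Pool.Agent.U449.BV (Rare OnDense on_dense_nat residues)
open Pool.Agent.Results.MP_79499b_co.OrderCountOdd (HasSingerDifferenceSet)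

/-- For ALL `n ≥ 2` with `|n - x| ≤ W` and ALL odd `m ≥ 3` whose least prime factor is at most `K` no finite group contains a
difference set with the Singer parameters of `(n, m)`. -/
def Near (K : ℕ) (W x : ℝ) : Prop :=
  ∀ n : ℕ, 2 ≤ n → |(n : ℝ) - x| ≤ W → ∀ m : ℕ, Odd m → 3 ≤ m → m.minFac ≤ K → ¬ HasSingerDifferenceSet n m

/-- **Theorem.** For all `K` and `0 < ε ≤ 1` the property `Near K` holds for almost all values of functions of two variables with few
coincidences on arbitrary dense sets, with the density `1 / (1 + log X) ^ (1 - ε)` of exceptions (`OnDense`).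
The least residues modulo `p` of `f(a, b) + g(a) + h(b)` are such a function, bounded by `X = p`, for all primes `p`, all
polynomials `f` modulo `p` with a monomial which contains both variables, arbitrary functions `g` and `h`, and arbitrary sets of
residues. -/
theorem result :
    (∀ (K : ℕ) (ε : ℝ), 0 < ε → ε ≤ 1 → OnDense (fun X => 1 / (1 + Real.log X) ^ (1 - ε)) (Near K)) ∧
    ∀ (p : ℕ) [Fact p.Prime] (d : ℕ) (f : MvPolynomial (Fin 2) (ZMod p)), f.totalDegree ≤ d →
      (∃ m ∈ f.support, m 0 ≠ 0 ∧ m 1 ≠ 0) → ∀ (g h : ZMod p → ZMod p) (A B : Finset (ZMod p)),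
        Rare d A B (fun a b => (((MvPolynomial.eval ![a, b] f + g a + h b).val : ℕ) : ℝ)) := by
  classical
  refine ⟨fun K ε hε hε1 => ?_, residues⟩
  obtain ⟨C, hC, h⟩ := OrderCountOdd.result K ε hε
  refine (on_dense_nat (Good := fun n => 2 ≤ n → ∀ m : ℕ, Odd m → 3 ≤ m → m.minFac ≤ K → ¬ HasSingerDifferenceSet n m)
    (s := 1 - ε) (K := C) (by linarith) ⟨3, fun x hx => ?_⟩).mono
    (fun W x _ h' n hn hw m h1 h2 h3 => h' n (by omega) hw hn m h1 h2 h3)
  have hx3 : (3 : ℝ) ≤ x := by exact_mod_cast hx
  have hl : 0 < Real.log x := Real.log_pos (by linarith)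
  have h1 := h x hx
  have h2 : C * x * Real.log x ^ (ε - 1) = C * (x / Real.log x ^ (1 - ε)) := by
    rw [show ε - 1 = -(1 - ε) by ring, Real.rpow_neg hl.le]
    ring
  rw [h2] at h1
  refine le_trans (Nat.cast_le.2 (Set.ncard_le_ncard ?_ ?_)) h1
  · rintro n ⟨h3, h4, h5⟩
    push Not at h5
    obtain ⟨h6, m, h7, h8, h9, h10⟩ := h5
    exact ⟨h6, h4, m, h7, h8, h9, h10⟩
  · exact (Set.finite_Iic x).subset fun n hn => hn.2.1

end Pool.Agent.Results.MP_79499b_co.MixedOnDenseSets
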