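import Mathlib
import Pool.Agent.U671.BT.Four

set_option autoImplicit false

/-!
# MP_79499b_co: tuples of orders of difference sets with Singer parameters, in all intervals

The starting file `OrderCountOdd` bounds the number of the orders up to `X` by `C X (log X)^(ε-1)`. Here
several shifts `n + h_1, ..., n + h_r` are considered at once: outside a set of `C N (log N)^(ε-r)`
integers of any interval of length `N` they are not all orders, uniformly in the interval and in the
shifts up to `N ^ A`. Consequences: almost all orders are isolated, and Brun's theorem for orders.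

Proof. For each shift the `k` least exact prime divisors `p` of `n + h_i` are fixed; modulo every prime
`q` such that some `p` is a nonresidue, the elements of order `L` (`L` the least prime factor of `m`)
are excluded for `n + h_i`, and modulo the primes below the largest `p` the class of `0`. For different
shifts these classes are disjoint, except modulo the prime divisors of a resultant, a polynomial in
`h_j - h_i` without integral zeros `≠ 0`: two numbers which are `0` or roots of unity `≠ 1` of odd order
never differ by a nonzero integer. So the densities add up, and the sieve gives the power `r` of the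
logarithm; the exceptional primes contribute only a power of `log log N`.
-/

namespace Pool.Agent.Results.MP_79499b_co.OrdersInTuples

open Pool.Agent.U671.BT

/-- Some finite group `G` (not assumed abelian) of order `(n ^ m - 1) / (n - 1)` contains a
difference set `D` with the Singer parameters:
`k = (n ^ (m - 1) - 1) / (n - 1)`, `lambda = (n ^ (m - 2) - 1) / (n - 1)`. -/
def HasSingerDifferenceSet (n m : ℕ) : Prop :=
  ∃ (G : Type) (_ : Group G) (_ : Fintype G) (_ : DecidableEq G) (D : Finset G),
    Fintype.card G * (n - 1) = n ^ m - 1 ∧ D.card * (n - 1) = n ^ (m - 1) - 1 ∧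
    ∀ g : G, g ≠ 1 →
      ((D ×ˢ D).filter (fun p : G × G => p.1 * p.2⁻¹ = g)).card * (n - 1) = n ^ (m - 2) - 1

/-- `n ≥ 2` is an order: for some odd `m ≥ 3` whose least prime factor is at most `K`, some finite
group contains a difference set with the Singer parameters of `(n, m)`. (For `K ≥ 3` this includes
`m = 3`, the planar difference sets of order `n`.) -/
def IsOrder (K n : ℕ) : Prop :=
  2 ≤ n ∧ ∃ m : ℕ, Odd m ∧ 3 ≤ m ∧ m.minFac ≤ K ∧ HasSingerDifferenceSet n m

/-- Let `K` be given.

(1) For all `r ≥ 1`, `A` and `ε > 0` there is `C` such that for all `N ≥ 3`, all different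
`h 0, …, h (r - 1) ≤ N ^ A` and all `a` at most `C N (log N) ^ (ε - r)` integers `n` with
`a < n ≤ a + N` are such that all `n + h i` are orders.

(2) For every `η > 0` there is `C` such that for all `N ≥ 3` and `a` at most
`C N (log N) ^ (-1 - η / 2)` orders `n` with `a < n ≤ a + N` have another order at a distance of at
most `(log N) ^ (1 - η)`.

(3) For every `d ≥ 1` the sum of `1 / n` over all `n` such that `n` and `n + d` are orders
converges. -/
theorem result (K : ℕ) :
    (∀ (r A : ℕ) (ε : ℝ), 1 ≤ r → 0 < ε → ∃ C : ℝ, ∀ N : ℕ, 3 ≤ N →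
      ∀ h : Fin r → ℕ, Function.Injective h → (∀ i, h i ≤ N ^ A) → ∀ a : ℕ,
      ({n : ℕ | a < n ∧ n ≤ a + N ∧ ∀ i, IsOrder K (n + h i)}.ncard : ℝ) ≤
        C * N * (Real.log N) ^ (ε - r)) ∧
    (∀ η : ℝ, 0 < η → ∃ C : ℝ, ∀ N : ℕ, 3 ≤ N → ∀ a : ℕ,
      ({n : ℕ | a < n ∧ n ≤ a + N ∧ IsOrder K n ∧ ∃ n' : ℕ, n' ≠ n ∧ IsOrder K n' ∧
        |(n' : ℝ) - n| ≤ (Real.log N) ^ (1 - η)}.ncard : ℝ) ≤
        C * N * (Real.log N) ^ (-1 - η / 2)) ∧
    (∀ d : ℕ, 1 ≤ d →
      Summable (fun n : {n : ℕ // IsOrder K n ∧ IsOrder K (n + d)} => 1 / ((n : ℕ) : ℝ))) := by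
  classical
  have key : ∀ (a N : ℕ) (P : ℕ → Prop),
      {n : ℕ | a < n ∧ n ≤ a + N ∧ P n}.ncard = ((Finset.Ioc a (a + N)).filter P).card := by
    intro a N P
    rw [← Set.ncard_coe_finset]
    congr 1
    ext n
    simp only [Set.mem_ofPred_eq, Finset.coe_filter, Finset.mem_Ioc, and_assoc]
  have e : ∀ n, IsOrder K n = IsOrd K n := fun n => rfl
  refine ⟨?_, ?_, ?_⟩
  · intro r A ε hr hε
    obtain ⟨C, -, H⟩ := tuples K r A hr ε hε
    refine ⟨C, fun N hN h hinj hh a => ?_⟩
    rw [key]
    simp only [e]
    convert H N hN h hinj hh a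
  · intro η hη
    obtain ⟨C, -, H⟩ := isolated K η hη
    refine ⟨C, fun N hN a => ?_⟩
    rw [key]
    simp only [e]
    convert H N hN a
  · intro d hd
    have h := brun K d hd
    have h3 : Summable (({n : ℕ | IsOrder K n ∧ IsOrder K (n + d)} : Set ℕ).indicator
        (fun n : ℕ => 1 / (n : ℝ))) := by
      refine h.congr ?_
      intro n
      rw [Set.indicator_apply]
      rfl
    exact (summable_subtype_iff_indicator
      (s := ({n : ℕ | IsOrder K n ∧ IsOrder K (n + d)} : Set ℕ))
      (f := fun n : ℕ => 1 / (n : ℝ))).2 h3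

end Pool.Agent.Results.MP_79499b_co.OrdersInTuples
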