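import Pool.Agent.U343.Sm.Cyc

set_option autoImplicit false

/-!
# Difference sets with Singer parameters and circuits of constant depth

Let `r` be a prime and `d` a natural number. Take a circuit of depth `d` with AND, OR, NOT and `MOD r`
gates that reads the `n` binary digits of `N < 2 ^ n`, and all of whose gates have at most
`2 ^ (n ^ (1 / (2 d + 5)))` inputs. For at least `κ 2 ^ n / n` integers `N ≡ 1 (mod 4)` below `2 ^ n` one of
two things happens: the circuit accepts `N`, but for no `m ≡ 3 (mod 4)` there is a difference set with the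
Singer parameters `(N, m)` in some group, not even a symmetric design with these parameters, or it
rejects `N`, but for all `m ≥ 3` there is such a difference set in a cyclic group.

Method. Let `q ∈ {3, 7}`, `q ≠ r`. For `x ∈ {0, 1} ^ k` the number `N_A(x) = A + ∑ x_i 2 ^ (g (i + 1))`
with `g = q (q - 1)` is `≡ A + |x| (mod q ^ 2)`. For random `A` in a suitable class modulo `4 q ^ 2` it
is prime with probability `≫ 1 / n` if `|x| ≢ s (mod q)`, and then there are difference sets for all
`m` (Singer; proved here for all finite fields). If `|x| ≡ s (mod q)`, it is `≡ 1 (mod 4)` and exactly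
divisible by `q ≡ 3 (mod 4)`, so for `m ≡ 3 (mod 4)` the number of points is `≡ 3 (mod 4)`, the order
`N ^ (m - 2)` of a design is exactly divisible by an odd power of `q` and `λ ≡ 1 (mod q)`, and there is
no design (Bruck-Ryser-Chowla, proved in `U343/Sm/Brc` for `v ≡ 3 (mod 4)`). So a good circuit would
give a good approximation of the functions `|x| mod q` by polynomials of small degree over the field
with `r` elements (Razborov, Smolensky), and there is none.
-/

namespace Pool.Agent.Results.MP_79499b_co.SingerSetsHardForCircuits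

open Filter
open Pool.Agent.U343.Sm (Circuit bits)

/-- Some finite group `G` (not assumed abelian) of order `(n ^ m - 1) / (n - 1)` contains a
difference set `D` with the Singer parameters:
`k = (n ^ (m - 1) - 1) / (n - 1)`, `lambda = (n ^ (m - 2) - 1) / (n - 1)`. -/
def HasSingerDifferenceSet (n m : ℕ) : Prop :=
  ∃ (G : Type) (_ : Group G) (_ : Fintype G) (_ : DecidableEq G) (D : Finset G),
    Fintype.card G * (n - 1) = n ^ m - 1 ∧ D.card * (n - 1) = n ^ (m - 1) - 1 ∧
    ∀ g : G, g ≠ 1 →
      ((D ×ˢ D).filter (fun p : G × G => p.1 * p.2⁻¹ = g)).card * (n - 1) = n ^ (m - 2) - 1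

/-- Some cyclic group `G` contains a difference set with the Singer parameters of `(n, m)`. -/
def HasCyclicSingerDifferenceSet (n m : ℕ) : Prop :=
  ∃ (G : Type) (_ : Group G) (_ : Fintype G) (_ : DecidableEq G) (D : Finset G), IsCyclic G ∧
    Fintype.card G * (n - 1) = n ^ m - 1 ∧ D.card * (n - 1) = n ^ (m - 1) - 1 ∧
    ∀ g : G, g ≠ 1 →
      ((D ×ˢ D).filter (fun p : G × G => p.1 * p.2⁻¹ = g)).card * (n - 1) = n ^ (m - 2) - 1

/-- There is a symmetric `(v, k, l)`-design: `k < v` and there is a family of `v` blocks, subsets of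
the `v`-set `Fin v`, such that every block has exactly `k` elements, every point lies in exactly `r`
blocks (for some `r`), and every two distinct points lie in exactly `l` common blocks. -/
def SymmetricDesign (v k l : ℕ) : Prop :=
  k < v ∧ ∃ (r : ℕ) (B : Fin v → Finset (Fin v)),
    (∀ i, (B i).card = k) ∧
    (∀ x, (Finset.univ.filter fun i => x ∈ B i).card = r) ∧
    (∀ x y, x ≠ y → (Finset.univ.filter fun i => x ∈ B i ∧ y ∈ B i).card = l)

/-- There is a symmetric design with the Singer parameters of `(n, m)`: `v = 1 + n + ... + n ^ (m - 1)`,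
`k = 1 + n + ... + n ^ (m - 2)` and `λ = 1 + n + ... + n ^ (m - 3)`. -/
def HasSingerDesign (n m : ℕ) : Prop :=
  SymmetricDesign (∑ i ∈ Finset.range m, n ^ i) (∑ i ∈ Finset.range (m - 1), n ^ i)
    (∑ i ∈ Finset.range (m - 2), n ^ i)

/-- For every prime `r` and every `d` there is `κ > 0` such that for all large `n`: if `f` is computed
by a circuit of depth `d` with AND, OR, NOT and `MOD r` gates with at most `S` inputs and
`S ≤ 2 ^ (n ^ (1 / (2 d + 5)))`, then more than `κ 2 ^ n / n` integers `N < 2 ^ n`, `N ≡ 1 (mod 4)`, are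
such that either `f` accepts `N` and for every `m ≡ 3 (mod 4)` there is no difference set with the
Singer parameters of `(N, m)` in any group and no symmetric design with these parameters, or `f`
rejects `N` and for all `m ≥ 3` some cyclic group contains such a difference set. -/
theorem result (r : ℕ) (hr : r.Prime) (d : ℕ) :
    ∃ κ : ℝ, 0 < κ ∧ ∀ᶠ n : ℕ in atTop, ∀ (S : ℕ) (f : (Fin n → Bool) → Bool),
      Circuit r S n d f → (S : ℝ) ≤ 2 ^ ((n : ℝ) ^ (1 / (2 * (d : ℝ) + 5))) →
      κ * 2 ^ n / n <
        ({N : ℕ | N < 2 ^ n ∧ N % 4 = 1 ∧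
          ((f (bits n N) = true ∧
              ∀ m : ℕ, m % 4 = 3 → ¬ HasSingerDifferenceSet N m ∧ ¬ HasSingerDesign N m) ∨
            (f (bits n N) = false ∧
              ∀ m : ℕ, 3 ≤ m → HasCyclicSingerDifferenceSet N m))}.ncard : ℝ) :=
  Pool.Agent.U343.Sm.cyc_circuits hr d

end Pool.Agent.Results.MP_79499b_co.SingerSetsHardForCircuits
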